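import Pool.Agent.X247.ML.Gap

/-! MP_e7878a_nt: a minimum length multiple in a finite box. -/

open Polynomial

namespace Pool.X247.ML

theorem natDegree_reverse' {f : ℤ[X]} (h : f.coeff 0 ≠ 0) : f.reverse.natDegree = f.natDegree := by
  rw [reverse_natDegree, natTrailingDegree_eq_zero.2 (Or.inr h), Nat.sub_zero]

theorem reverse_reverse' {f : ℤ[X]} (h : f.coeff 0 ≠ 0) : f.reverse.reverse = f := by
  have h1 : f.reverse.reverse = reflect f.reverse.natDegree f.reverse := rfl
  have h2 : f.reverse = reflect f.natDegree f := rfl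
  rw [h1, natDegree_reverse' h, h2, reflect_reflect]

theorem irreducible_reverse {P : ℤ[X]} (h : Irreducible P) (h0 : P.coeff 0 ≠ 0) : Irreducible P.reverse := by
  have key : ∀ A : ℤ[X], A.coeff 0 ≠ 0 → IsUnit A.reverse → IsUnit A := by
    intro A hA hu
    obtain ⟨r, hr, e⟩ := isUnit_iff.1 hu
    have := reverse_reverse' hA
    rw [← e, reverse_C] at this
    rw [← this]
    exact isUnit_iff.2 ⟨r, hr, rfl⟩
  refine ⟨fun hu => h.not_isUnit (key P h0 hu), ?_⟩
  intro A B hAB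
  have e : P = A.reverse * B.reverse := by
    rw [← reverse_mul_of_domain, ← hAB, reverse_reverse' h0]
  have hc : A.coeff 0 * B.coeff 0 ≠ 0 := by
    rw [← mul_coeff_zero, ← hAB, coeff_zero_reverse]
    exact leadingCoeff_ne_zero.2 h.ne_zero
  rcases h.isUnit_or_isUnit e with h1 | h1
  · exact Or.inl (key A (left_ne_zero_of_mul hc) h1)
  · exact Or.inr (key B (right_ne_zero_of_mul hc) h1)

/-- nonmonic irreducible polynomials of positive degree -/
structure NonmonicIrr (P : ℤ[X]) : Prop where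
  irr : Irreducible P
  deg : 1 ≤ P.natDegree
  ne1 : P.leadingCoeff ≠ 1
  ne2 : P.leadingCoeff ≠ -1

theorem NonmonicIrr.coeff_zero {P : ℤ[X]} (h : NonmonicIrr P) : P.coeff 0 ≠ 0 := by
  intro h0
  have h1 : X ∣ P := X_dvd_iff.2 h0
  obtain ⟨u, hu⟩ := (prime_X.irreducible).associated_of_dvd h.irr h1
  obtain ⟨r, hr, e⟩ := isUnit_iff.1 u.isUnit
  rw [← e] at hu
  have h2 : P.leadingCoeff = r := by
    rw [← hu, mul_comm, leadingCoeff_mul_X, leadingCoeff_C]
  rcases Int.isUnit_iff.1 hr with h3 | h3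
  · exact h.ne1 (h2.trans h3)
  · exact h.ne2 (h2.trans h3)

theorem NonmonicIrr.dat {P : ℤ[X]} (h : NonmonicIrr P) : ∃ p, Dat P.reverse p := by
  have hne : P.leadingCoeff.natAbs ≠ 1 := by
    intro e
    rcases Int.natAbs_eq_iff.1 e with h1 | h1
    · exact h.ne1 (by simpa using h1)
    · exact h.ne2 (by simpa using h1)
  obtain ⟨p, hp, hd⟩ := Nat.exists_prime_and_dvd hne
  refine ⟨p, hp, irreducible_reverse h.irr h.coeff_zero, ?_, ?_⟩
  · rw [natDegree_reverse' h.coeff_zero]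
    have := h.deg; omega
  · rw [coeff_zero_reverse]
    exact Int.natCast_dvd.2 hd

theorem sum_range_le_len (P : ℤ[X]) (n : ℕ) : ∑ k ∈ Finset.range n, (P.coeff k).natAbs ≤ len P := by
  rw [len_eq P (N := max n (P.natDegree + 1)) (by omega)]
  refine Finset.sum_le_sum_of_subset ?_
  intro k hk
  rw [Finset.mem_range] at hk ⊢
  omega

theorem coeff_bound {P T : ℤ[X]} (h0 : P.coeff 0 ≠ 0) {L : ℕ} (hP : len P ≤ L) (hF : len (P * T) ≤ L) (i : ℕ) :
    (T.coeff i).natAbs ≤ (1 + L) ^ (i + 1) := by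
  induction i using Nat.strong_induction_on with
  | _ i ih =>
    have e : (P * T).coeff i = ∑ k ∈ Finset.range i, P.coeff (k + 1) * T.coeff (i - (k + 1)) +
        P.coeff 0 * T.coeff i := by
      rw [coeff_mul, Finset.Nat.sum_antidiagonal_eq_sum_range_succ (fun a b => P.coeff a * T.coeff b) i,
        Finset.sum_range_succ']
      simp
    have h1 : (T.coeff i).natAbs ≤ (P.coeff 0 * T.coeff i).natAbs := by
      rw [Int.natAbs_mul]
      exact Nat.le_mul_of_pos_left _ (Int.natAbs_pos.2 h0)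
    have h2 : P.coeff 0 * T.coeff i = (P * T).coeff i -
        ∑ k ∈ Finset.range i, P.coeff (k + 1) * T.coeff (i - (k + 1)) := by
      rw [e]; ring
    have h3 : (P.coeff 0 * T.coeff i).natAbs ≤ L +
        (∑ k ∈ Finset.range i, P.coeff (k + 1) * T.coeff (i - (k + 1))).natAbs := by
      rw [h2]
      refine (Int.natAbs_sub_le _ _).trans (Nat.add_le_add_right ((coeff_le_len _ i).trans hF) _)
    rcases Nat.eq_zero_or_pos i with hi | hi
    · subst hi
      simp only [Finset.range_zero, Finset.sum_empty, Int.natAbs_zero, add_zero] at h3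
      rw [zero_add, pow_one]
      omega
    have h4 : (∑ k ∈ Finset.range i, P.coeff (k + 1) * T.coeff (i - (k + 1))).natAbs ≤
        L * (1 + L) ^ i := by
      calc (∑ k ∈ Finset.range i, P.coeff (k + 1) * T.coeff (i - (k + 1))).natAbs
          ≤ ∑ k ∈ Finset.range i, (P.coeff (k + 1) * T.coeff (i - (k + 1))).natAbs := Int.natAbs_sum_le _ _
        _ ≤ ∑ k ∈ Finset.range i, (P.coeff (k + 1)).natAbs * (1 + L) ^ i := by
            refine Finset.sum_le_sum fun k hk => ?_
            rw [Finset.mem_range] at hk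
            rw [Int.natAbs_mul]
            refine Nat.mul_le_mul_left _ ((ih _ (by omega)).trans (Nat.pow_le_pow_right (by omega) (by omega)))
        _ = (∑ k ∈ Finset.range i, (P.coeff (k + 1)).natAbs) * (1 + L) ^ i := by rw [Finset.sum_mul]
        _ ≤ L * (1 + L) ^ i := by
            refine Nat.mul_le_mul_right _ (le_trans ?_ ((sum_range_le_len P (i + 1)).trans hP))
            rw [Finset.sum_range_succ']
            exact Nat.le_add_right _ _
    have h5 : L ≤ (1 + L) ^ i := by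
      calc L ≤ 1 + L := by omega
        _ ≤ (1 + L) ^ i := Nat.le_self_pow (by omega) _
    calc (T.coeff i).natAbs ≤ L + L * (1 + L) ^ i := h1.trans (h3.trans (Nat.add_le_add_left h4 _))
      _ ≤ (1 + L) ^ i + L * (1 + L) ^ i := Nat.add_le_add_right h5 _
      _ = (1 + L) ^ (i + 1) := by ring

theorem exists_min (P : ℤ[X]) : ∃ T : ℤ[X], T ≠ 0 ∧ (∀ S : ℤ[X], S ≠ 0 → len (P * T) ≤ len (P * S)) ∧
    T.coeff 0 ≠ 0 := by
  classical
  have h1 : ∃ n, ∃ T : ℤ[X], T ≠ 0 ∧ len (P * T) = n := ⟨_, 1, one_ne_zero, rfl⟩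
  obtain ⟨T1, hT1, e1⟩ := Nat.find_spec h1
  have hmin1 : ∀ S : ℤ[X], S ≠ 0 → len (P * T1) ≤ len (P * S) := by
    intro S hS
    rw [e1]
    exact Nat.find_min' h1 ⟨S, hS, rfl⟩
  have h2 : ∃ n, ∃ T : ℤ[X], (T ≠ 0 ∧ ∀ S : ℤ[X], S ≠ 0 → len (P * T) ≤ len (P * S)) ∧ T.natDegree = n :=
    ⟨_, T1, ⟨hT1, hmin1⟩, rfl⟩
  obtain ⟨T, ⟨hT, hmin⟩, e⟩ := Nat.find_spec h2
  refine ⟨T, hT, hmin, ?_⟩
  intro h0
  obtain ⟨T', rfl⟩ := X_dvd_iff.2 h0
  have hT' : T' ≠ 0 := by rintro rfl; simp at hT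
  have e2 : P * (X * T') = X * (P * T') := by ring
  have h3 := Nat.find_min' h2 ⟨T', ⟨hT', fun S hS => by
    have := hmin S hS
    rwa [e2, len_X_mul] at this⟩, rfl⟩
  rw [← e, natDegree_X_mul hT'] at h3
  omega

/-- a minimum length multiple with bounded cofactor -/
theorem exists_box {P : ℤ[X]} (h : NonmonicIrr P) : ∃ T : ℤ[X], T ≠ 0 ∧
    (∀ S : ℤ[X], S ≠ 0 → len (P * T) ≤ len (P * S)) ∧
    T.natDegree ≤ EE P.natDegree (len P) (len P) ∧ ∀ i, (T.coeff i).natAbs ≤ (1 + len P) ^ (i + 1) := by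
  obtain ⟨p, hdat⟩ := h.dat
  obtain ⟨T, hT, hmin, hT0⟩ := exists_min P
  have hP0 := h.coeff_zero
  have hPT : P * T ≠ 0 := mul_ne_zero h.irr.ne_zero hT
  have hPT0 : (P * T).coeff 0 ≠ 0 := by rw [mul_coeff_zero]; exact mul_ne_zero hP0 hT0
  have hle : len (P * T) ≤ len P := by
    have := hmin 1 one_ne_zero
    rwa [mul_one] at this
  refine ⟨T, hT, hmin, ?_, fun i => coeff_bound hP0 le_rfl hle i⟩
  have h1 := deg_bound hdat (F := (P * T).reverse) (by rw [reverse_mul_of_domain]; exact dvd_mul_right _ _)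
    (by rw [coeff_zero_reverse]; exact leadingCoeff_ne_zero.2 hPT) (fun S hS => by
      rw [len_reverse, ← len_reverse (P.reverse * S), reverse_mul_of_domain, reverse_reverse' hP0]
      refine hmin _ ?_
      rw [Ne, reverse_eq_zero]
      exact right_ne_zero_of_mul hS) (L := len P) (le_of_eq (len_reverse P))
  rw [natDegree_reverse' hPT0, natDegree_reverse' hP0, natDegree_mul h.irr.ne_zero hT] at h1
  omega

theorem EE_mono_d {d d' L : ℕ} (hd : d ≤ d') (hL : 1 ≤ L) (t : ℕ) : EE d L t ≤ EE d' L t := by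
  induction t with
  | zero => exact le_rfl
  | succ t ih =>
    rw [EE, EE]
    refine Nat.mul_le_mul hd (Nat.mul_le_mul (Nat.factorial_le (by omega)) (Nat.pow_le_pow_right hL (by omega)))

end Pool.X247.ML
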