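import Pool.Agent.X247.ML.Box
import Pool.Agent.Helper566.FD.J7

/-! MP_e7878a_nt: the search, and its computability. -/

open Polynomial

namespace Pool.X247.ML

/-- the polynomial with a given list of coefficients, constant term first -/
noncomputable def toP (l : List ℤ) : ℤ[X] := ∑ i ∈ Finset.range l.length, C (l.getD i 0) * X ^ i

theorem coeff_toP (l : List ℤ) (i : ℕ) : (toP l).coeff i = l.getD i 0 := by
  unfold toP
  rw [finset_sum_coeff]
  simp only [coeff_C_mul, coeff_X_pow]
  by_cases hi : i < l.length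
  · rw [Finset.sum_eq_single i]
    · simp
    · intro b _ hb; rw [if_neg (fun e => hb e.symm), mul_zero]
    · intro hn; exact absurd (Finset.mem_range.2 hi) hn
  · rw [Finset.sum_eq_zero]
    · rw [List.getD_eq_default _ _ (by omega)]
    · intro b hb
      rw [Finset.mem_range] at hb
      rw [if_neg (by omega), mul_zero]

theorem natDegree_toP (l : List ℤ) : (toP l).natDegree < l.length + 1 := by
  rw [Nat.lt_succ_iff, natDegree_le_iff_coeff_eq_zero]
  intro N hN
  rw [coeff_toP, List.getD_eq_default _ _ (by omega)]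

theorem sum_map_range {M : Type} [AddCommMonoid M] (f : ℕ → M) (n : ℕ) :
    ((List.range n).map f).sum = ∑ i ∈ Finset.range n, f i := by
  induction n with
  | zero => simp
  | succ n ih => rw [List.range_succ, List.map_append, List.sum_append, ih, Finset.sum_range_succ]; simp

def lenL (l : List ℤ) : ℕ := ((List.range (l.length + 1)).map (fun i => (l.getD i 0).natAbs)).sum

theorem lenL_eq (l : List ℤ) : lenL l = len (toP l) := by
  unfold lenL
  rw [sum_map_range, len_eq _ (natDegree_toP l)]
  simp only [coeff_toP]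

def cmul (l t : List ℤ) (n : ℕ) : ℤ := ((List.range (n + 1)).map (fun k => l.getD k 0 * t.getD (n - k) 0)).sum

def mulL (l t : List ℤ) : List ℤ := (List.range (l.length + t.length)).map (fun n => cmul l t n)

theorem cmul_eq (l t : List ℤ) (n : ℕ) : cmul l t n = (toP l * toP t).coeff n := by
  unfold cmul
  rw [sum_map_range, coeff_mul, Finset.Nat.sum_antidiagonal_eq_sum_range_succ
    (fun a b => (toP l).coeff a * (toP t).coeff b) n]
  simp only [coeff_toP]

theorem toP_mulL (l t : List ℤ) : toP (mulL l t) = toP l * toP t := by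
  ext n
  rw [coeff_toP]
  unfold mulL
  by_cases hn : n < l.length + t.length
  · rw [List.getD_eq_getElem _ _ (by simpa using hn)]
    simp only [List.getElem_map, List.getElem_range]
    exact cmul_eq l t n
  · rw [List.getD_eq_default _ _ (by simp; omega), ← cmul_eq]
    unfold cmul
    rw [sum_map_range, Finset.sum_eq_zero]
    intro k hk
    by_cases h1 : k < l.length
    · rw [List.getD_eq_default t _ (by omega), mul_zero]
    · rw [List.getD_eq_default l _ (by omega), zero_mul]

/-- all lists of length `n` with entries of absolute value at most `B` -/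
def box (B : ℕ) : ℕ → List (List ℤ)
  | 0 => [[]]
  | n + 1 => (box B n).flatMap (fun t => (List.range (2 * B + 1)).map (fun c : ℕ => ((c : ℤ) - (B : ℤ)) :: t))

theorem mem_box {B : ℕ} : ∀ {n : ℕ} {t : List ℤ}, t.length = n → (∀ x ∈ t, x.natAbs ≤ B) → t ∈ box B n := by
  intro n
  induction n with
  | zero =>
    intro t ht _
    rw [List.length_eq_zero_iff.1 ht]
    simp [box]
  | succ n ih =>
    intro t ht hb
    match t, ht with
    | a :: t, ht =>
      rw [box, List.mem_flatMap]
      refine ⟨t, ih (by simpa using ht) (fun x hx => hb x (List.mem_cons_of_mem _ hx)), ?_⟩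
      rw [List.mem_map]
      have ha := hb a List.mem_cons_self
      refine ⟨(a + B).toNat, ?_, ?_⟩
      · rw [List.mem_range]; omega
      · congr 1; omega

/-- one step of the search -/
def pick (l acc t : List ℤ) : List ℤ :=
  if 0 < lenL t ∧ lenL (mulL l t) < lenL (mulL l acc) then t else acc

def best (l : List ℤ) (c : List (List ℤ)) : List ℤ := c.foldl (fun acc t => pick l acc t) [1]

theorem foldl_pick (l : List ℤ) : ∀ (c : List (List ℤ)) (acc : List ℤ), 0 < lenL acc →
    0 < lenL (c.foldl (fun acc t => pick l acc t) acc) ∧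
    lenL (mulL l (c.foldl (fun acc t => pick l acc t) acc)) ≤ lenL (mulL l acc) ∧
    ∀ t ∈ c, 0 < lenL t → lenL (mulL l (c.foldl (fun acc t => pick l acc t) acc)) ≤ lenL (mulL l t) := by
  intro c
  induction c with
  | nil => intro acc h; exact ⟨h, le_rfl, fun t ht => absurd ht (by simp)⟩
  | cons a c ih =>
    intro acc h
    rw [List.foldl_cons]
    have h1 : 0 < lenL (pick l acc a) := by
      unfold pick; split_ifs with hc
      · exact hc.1
      · exact h
    have h2 : lenL (mulL l (pick l acc a)) ≤ lenL (mulL l acc) := by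
      unfold pick; split_ifs with hc
      · exact hc.2.le
      · exact le_rfl
    have h3 : 0 < lenL a → lenL (mulL l (pick l acc a)) ≤ lenL (mulL l a) := by
      intro ha
      unfold pick; split_ifs with hc
      · exact le_rfl
      · push Not at hc
        exact hc ha
    obtain ⟨a1, a2, a3⟩ := ih (pick l acc a) h1
    refine ⟨a1, a2.trans h2, ?_⟩
    intro t ht hpos
    rcases List.mem_cons.1 ht with rfl | ht
    · exact a2.trans (h3 hpos)
    · exact a3 t ht hpos

/-- the size of the box -/
def szB (l : List ℤ) : ℕ := EE l.length (lenL l) (lenL l) + 1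

def algo (l : List ℤ) : List ℤ := mulL l (best l (box ((1 + lenL l) ^ szB l) (szB l)))

theorem len_pos {F : ℤ[X]} : 0 < len F ↔ F ≠ 0 := by
  constructor
  · rintro h rfl
    simp [len] at h
  · intro h
    have h1 : F.coeff F.natDegree ≠ 0 := by rw [coeff_natDegree]; exact leadingCoeff_ne_zero.2 h
    exact lt_of_lt_of_le (Int.natAbs_pos.2 h1) (coeff_le_len F _)

/-- `F` is a minimum length multiple of `P` -/
def IsMinLengthMultiple (P F : ℤ[X]) : Prop :=
  F ≠ 0 ∧ P ∣ F ∧ ∀ T : ℤ[X], P * T ≠ 0 → len F ≤ len (P * T)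

theorem algo_spec (l : List ℤ) (h : NonmonicIrr (toP l)) : IsMinLengthMultiple (toP l) (toP (algo l)) := by
  obtain ⟨T, hT, hmin, hdeg, hco⟩ := exists_box h
  have hne := h.irr.ne_zero
  have hlen1 : 1 ≤ lenL l := by rw [lenL_eq]; exact len_pos.2 hne
  obtain ⟨h1, -, h3⟩ := foldl_pick l (box ((1 + lenL l) ^ szB l) (szB l)) [1] (by
    rw [lenL_eq, len_pos]
    intro e
    have := congrArg (fun p : ℤ[X] => p.coeff 0) e
    simp only [coeff_toP] at this
    simp at this)
  have hb : best l (box ((1 + lenL l) ^ szB l) (szB l)) =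
    (box ((1 + lenL l) ^ szB l) (szB l)).foldl (fun acc t => pick l acc t) [1] := rfl
  rw [← hb] at h1 h3
  unfold algo
  set r := best l (box ((1 + lenL l) ^ szB l) (szB l)) with hr
  rw [toP_mulL]
  rw [lenL_eq, len_pos] at h1
  refine ⟨mul_ne_zero hne h1, dvd_mul_right _ _, ?_⟩
  intro S hS
  have hS0 : S ≠ 0 := right_ne_zero_of_mul hS
  refine le_trans ?_ (hmin S hS0)
  set t : List ℤ := (List.range (szB l)).map (fun i => T.coeff i) with ht
  have hdl : T.natDegree < szB l := by
    have h4 := natDegree_toP l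
    have h5 := EE_mono_d (d := (toP l).natDegree) (d' := l.length) (L := lenL l) (by omega) hlen1 (lenL l)
    rw [lenL_eq] at h5
    unfold szB
    rw [lenL_eq]
    omega
  have htT : toP t = T := by
    ext i
    rw [coeff_toP]
    by_cases hi : i < szB l
    · rw [List.getD_eq_getElem _ _ (by simpa [ht] using hi)]
      simp [ht]
    · rw [List.getD_eq_default _ _ (by simp [ht]; omega), coeff_eq_zero_of_natDegree_lt (by omega)]
  have hmem : t ∈ box ((1 + lenL l) ^ szB l) (szB l) := by
    refine mem_box (by simp [ht]) ?_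
    intro x hx
    rw [ht, List.mem_map] at hx
    obtain ⟨i, hi, rfl⟩ := hx
    rw [List.mem_range] at hi
    refine (hco i).trans ?_
    rw [lenL_eq]
    exact Nat.pow_le_pow_right (by omega) (by omega)
  have h6 := h3 t hmem (by rw [lenL_eq, htT]; exact len_pos.2 hT)
  rw [lenL_eq, lenL_eq, toP_mulL, toP_mulL, htT] at h6
  exact h6

/-! ### computability -/

open Pool.Agent.Helper566.FD.J7

theorem prim_natAbs : Primrec Int.natAbs := by
  refine (Primrec.nat_add.comp prim_toNat prim_toNat_neg).of_eq fun z => ?_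
  omega

theorem prim_sumN {α : Type} [Primcodable α] {f : α → List ℕ} (hf : Primrec f) : Primrec (fun a => (f a).sum) := by
  refine (Primrec.list_foldr (h := fun _ p => p.1 + p.2) hf (Primrec.const 0)
    (Primrec.nat_add.comp (Primrec.fst.comp Primrec.snd) (Primrec.snd.comp Primrec.snd))).of_eq fun a => ?_
  rw [List.sum_eq_foldr]

theorem prim_sumZ {α : Type} [Primcodable α] {f : α → List ℤ} (hf : Primrec f) : Primrec (fun a => (f a).sum) := by
  refine (Primrec.list_foldr (h := fun _ p => p.1 + p.2) hf (Primrec.const 0)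
    (prim_int_add.comp (Primrec.fst.comp Primrec.snd) (Primrec.snd.comp Primrec.snd))).of_eq fun a => ?_
  rw [List.sum_eq_foldr]

theorem prim_lenL : Primrec lenL := by
  unfold lenL
  refine prim_sumN ?_
  refine Primrec.list_map (Primrec.list_range.comp (Primrec.succ.comp Primrec.list_length)) ?_
  exact prim_natAbs.comp ((Primrec.list_getD 0).comp Primrec.fst Primrec.snd)

theorem prim_cmul : Primrec (fun p : (List ℤ × List ℤ) × ℕ => cmul p.1.1 p.1.2 p.2) := by
  unfold cmul
  refine prim_sumZ ?_
  refine Primrec.list_map (Primrec.list_range.comp (Primrec.succ.comp Primrec.snd)) ?_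
  refine prim_int_mul.comp ?_ ?_
  · exact (Primrec.list_getD 0).comp (Primrec.fst.comp (Primrec.fst.comp Primrec.fst)) Primrec.snd
  · exact (Primrec.list_getD 0).comp (Primrec.snd.comp (Primrec.fst.comp Primrec.fst))
      (Primrec.nat_sub.comp (Primrec.snd.comp Primrec.fst) Primrec.snd)

theorem prim_mulL : Primrec₂ mulL := by
  unfold mulL
  refine Primrec.list_map (Primrec.list_range.comp (Primrec.nat_add.comp (Primrec.list_length.comp Primrec.fst)
    (Primrec.list_length.comp Primrec.snd))) ?_
  exact prim_cmul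

theorem prim_pick : Primrec (fun p : List ℤ × (List ℤ × List ℤ) => pick p.1 p.2.1 p.2.2) := by
  unfold pick
  refine Primrec.ite ?_ (Primrec.snd.comp Primrec.snd) (Primrec.fst.comp Primrec.snd)
  refine PrimrecPred.and ?_ ?_
  · exact Primrec.nat_lt.comp (Primrec.const 0) (prim_lenL.comp (Primrec.snd.comp Primrec.snd))
  · exact Primrec.nat_lt.comp (prim_lenL.comp (prim_mulL.comp Primrec.fst (Primrec.snd.comp Primrec.snd)))
      (prim_lenL.comp (prim_mulL.comp Primrec.fst (Primrec.fst.comp Primrec.snd)))

theorem prim_best : Primrec₂ best := by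
  unfold best
  refine Primrec.list_foldl (f := fun p : List ℤ × List (List ℤ) => p.2) (g := fun _ => [1])
    (h := fun p q => pick p.1 q.1 q.2) Primrec.snd (Primrec.const _) ?_
  exact prim_pick.comp (Primrec.pair (Primrec.fst.comp Primrec.fst) Primrec.snd)

theorem prim_pow : Primrec₂ (fun a n : ℕ => a ^ n) := by
  have h : Primrec₂ (fun (a n : ℕ) => n.rec (motive := fun _ => ℕ) 1 (fun _ r => r * a)) :=
    Primrec.nat_rec (f := fun _ : ℕ => 1) (g := fun a (p : ℕ × ℕ) => p.2 * a) (Primrec.const 1)
      (Primrec.nat_mul.comp (Primrec.snd.comp Primrec.snd) Primrec.fst)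
  refine h.of_eq fun a n => ?_
  induction n with
  | zero => rfl
  | succ n ih => rw [pow_succ, ← ih]

theorem prim_fact : Primrec Nat.factorial := by
  have h : Primrec (fun (n : ℕ) => n.rec (motive := fun _ => ℕ) 1 (fun m r => (m + 1) * r)) :=
    Primrec.nat_rec₁ 1 (Primrec.nat_mul.comp (Primrec.succ.comp Primrec.fst) Primrec.snd)
  refine h.of_eq fun n => ?_
  induction n with
  | zero => rfl
  | succ n ih => rw [Nat.factorial_succ, ← ih]

theorem prim_EE : Primrec (fun p : (ℕ × ℕ) × ℕ => EE p.1.1 p.1.2 p.2) := by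
  have h : Primrec₂ (fun (p : ℕ × ℕ) (t : ℕ) => t.rec (motive := fun _ => ℕ) 0
      (fun _ r => p.1 * ((p.1 + r).factorial * p.2 ^ (p.1 + r)))) := by
    refine Primrec.nat_rec (f := fun _ : ℕ × ℕ => 0)
      (g := fun (p : ℕ × ℕ) (q : ℕ × ℕ) => p.1 * ((p.1 + q.2).factorial * p.2 ^ (p.1 + q.2))) (Primrec.const 0) ?_
    have h1 : Primrec (fun x : (ℕ × ℕ) × (ℕ × ℕ) => x.1.1 + x.2.2) :=
      Primrec.nat_add.comp (Primrec.fst.comp Primrec.fst) (Primrec.snd.comp Primrec.snd)
    exact Primrec.nat_mul.comp (Primrec.fst.comp Primrec.fst)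
      (Primrec.nat_mul.comp (prim_fact.comp h1) (prim_pow.comp (Primrec.snd.comp Primrec.fst) h1))
  refine Primrec.of_eq (α := (ℕ × ℕ) × ℕ) h fun p => ?_
  obtain ⟨⟨d, L⟩, t⟩ := p
  induction t with
  | zero => rfl
  | succ t ih =>
    simp only at ih ⊢
    rw [EE, ← ih]

theorem prim_box : Primrec₂ box := by
  have h : Primrec₂ (fun (B n : ℕ) => n.rec (motive := fun _ => List (List ℤ)) [[]]
      (fun _ r => r.flatMap (fun t => (List.range (2 * B + 1)).map (fun c : ℕ => ((c : ℤ) - (B : ℤ)) :: t)))) := by
    refine Primrec.nat_rec (f := fun _ : ℕ => [[]])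
      (g := fun (B : ℕ) (q : ℕ × List (List ℤ)) =>
        q.2.flatMap (fun t => (List.range (2 * B + 1)).map (fun c : ℕ => ((c : ℤ) - (B : ℤ)) :: t))) (Primrec.const _) ?_
    refine Primrec.list_flatMap (Primrec.snd.comp Primrec.snd) ?_
    refine Primrec.list_map ?_ ?_
    · exact Primrec.list_range.comp (Primrec.succ.comp (Primrec.nat_mul.comp (Primrec.const 2)
        (Primrec.fst.comp Primrec.fst)))
    · refine Primrec.list_cons.comp ?_ (Primrec.snd.comp Primrec.fst)
      exact prim_natSub.comp Primrec.snd (Primrec.fst.comp (Primrec.fst.comp Primrec.fst))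
  refine h.of_eq fun B n => ?_
  induction n with
  | zero => rfl
  | succ n ih => rw [box, ← ih]

theorem prim_algo : Primrec algo := by
  unfold algo szB
  have h1 : Primrec (fun l : List ℤ => EE l.length (lenL l) (lenL l) + 1) :=
    Primrec.succ.comp (prim_EE.comp (Primrec.pair (Primrec.pair Primrec.list_length prim_lenL) prim_lenL))
  have h2 : Primrec (fun l : List ℤ => (1 + lenL l) ^ (EE l.length (lenL l) (lenL l) + 1)) :=
    prim_pow.comp (Primrec.nat_add.comp (Primrec.const 1) prim_lenL) h1
  exact prim_mulL.comp Primrec.id (prim_best.comp Primrec.id (prim_box.comp h2 h1))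

end Pool.X247.ML
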