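import Mathlib

/-! MP_e7878a_nt: minimum length multiples of nonmonic irreducible polynomials, the degree bound. -/

open Polynomial

namespace Pool.X247.ML

/-- the length: the sum of the absolute values of the coefficients -/
def len (F : ℤ[X]) : ℕ := ∑ i ∈ F.support, (F.coeff i).natAbs

theorem len_eq (F : ℤ[X]) {N : ℕ} (h : F.natDegree < N) : len F = ∑ i ∈ Finset.range N, (F.coeff i).natAbs := by
  unfold len
  refine Finset.sum_subset ?_ ?_
  · intro i hi
    rw [Finset.mem_range]
    exact lt_of_le_of_lt (le_natDegree_of_mem_supp i hi) h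
  · intro i _ hi
    rw [notMem_support_iff.1 hi]; rfl

theorem len_X_mul (F : ℤ[X]) : len (X * F) = len F := by
  rw [len_eq F (Nat.lt_succ_self _), len_eq (X * F) (N := F.natDegree + 1 + 1), Finset.sum_range_succ']
  · simp
  · have := natDegree_mul_le (p := (X : ℤ[X])) (q := F)
    have h1 := natDegree_X_le (R := ℤ)
    omega

theorem len_reverse (F : ℤ[X]) : len F.reverse = len F := by
  rw [len_eq F (Nat.lt_succ_self _), len_eq F.reverse (N := F.natDegree + 1) (by
    have := reverse_natDegree_le F; omega), ← Finset.sum_range_reflect]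
  refine Finset.sum_congr rfl fun i hi => ?_
  rw [Finset.mem_range] at hi
  rw [coeff_reverse, revAt_le (by omega)]
  congr 2
  omega

theorem coeff_le_len (F : ℤ[X]) (i : ℕ) : (F.coeff i).natAbs ≤ len F := by
  by_cases h : i ∈ F.support
  · exact Finset.single_le_sum (f := fun i => (F.coeff i).natAbs) (fun _ _ => Nat.zero_le _) h
  · rw [notMem_support_iff.1 h]; simp

theorem gap_core {p : ℕ} (hp : p.Prime) {Q : ℤ[X]} {s : ℕ} (hs : ¬ (p : ℤ) ∣ Q.coeff s)
    (hlt : ∀ i < s, (p : ℤ) ∣ Q.coeff i) (hs0 : 0 < s) {d : ℕ} (hd : s ≤ d) :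
    ∀ (n : ℕ) (R : ℤ), R.natAbs ≤ n → R ≠ 0 → ∀ (W : ℤ[X]) (m : ℕ),
      (∀ i < m, (Q * W).coeff i = (C R : ℤ[X]).coeff i) → m ≤ d * n := by
  intro n
  induction n with
  | zero => intro R h h0; exact absurd (Int.natAbs_eq_zero.1 (Nat.le_zero.1 h)) h0
  | succ n ih =>
    intro R hR h0 W m h
    rcases Nat.eq_zero_or_pos m with hm | hm
    · subst hm; exact Nat.zero_le _
    have e0 := h 0 hm
    rw [mul_coeff_zero, coeff_C_zero] at e0
    obtain ⟨R', rfl⟩ : (p : ℤ) ∣ R := e0 ▸ (dvd_mul_of_dvd_left (hlt 0 hs0) _)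
    have hp2 := hp.two_le
    have hpz : (p : ℤ) ≠ 0 := by exact_mod_cast hp.ne_zero
    have hR0 : R' ≠ 0 := by rintro rfl; simp at h0
    have hR' : R'.natAbs ≤ n := by
      rw [Int.natAbs_mul, Int.natAbs_natCast] at hR
      have : 1 ≤ R'.natAbs := Int.natAbs_pos.2 hR0
      nlinarith
    have hpp : Prime (p : ℤ) := Nat.prime_iff_prime_int.1 hp
    have hW : ∀ k, k + s < m → (p : ℤ) ∣ W.coeff k := by
      intro k
      induction k using Nat.strong_induction_on with
      | _ k ihk =>
        intro hk
        have e := h (k + s) hk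
        have hdv : (p : ℤ) ∣ (Q * W).coeff (k + s) := by
          rw [e, coeff_C]
          split_ifs
          · exact dvd_mul_right _ _
          · exact dvd_zero _
        rw [coeff_mul, ← Finset.add_sum_erase _ _ (show ((s, k) : ℕ × ℕ) ∈ Finset.HasAntidiagonal.antidiagonal (k + s) by
          rw [Finset.HasAntidiagonal.mem_antidiagonal]; omega)] at hdv
        have hrest : (p : ℤ) ∣ ∑ x ∈ (Finset.HasAntidiagonal.antidiagonal (k + s)).erase (s, k), Q.coeff x.1 * W.coeff x.2 := by
          refine Finset.dvd_sum ?_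
          rintro ⟨a, b⟩ hab
          rw [Finset.mem_erase, Finset.HasAntidiagonal.mem_antidiagonal] at hab
          obtain ⟨hne, hsum⟩ := hab
          simp only at hsum
          by_cases ha : a < s
          · exact dvd_mul_of_dvd_left (hlt a ha) _
          · have hb : b < k := by
              rcases Nat.lt_or_ge s a with h1 | h1
              · omega
              · exfalso
                have h2 : a = s := by omega
                have h3 : b = k := by omega
                exact hne (by rw [h2, h3])
            exact dvd_mul_of_dvd_right (ihk b hb (by omega)) _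
        have h1 := (dvd_add_left hrest).1 hdv
        exact (hpp.dvd_or_dvd h1).resolve_left hs
    set W' : ℤ[X] := ∑ i ∈ Finset.range (m - s), C (W.coeff i / p) * X ^ i with hW'
    have hc : ∀ i < m - s, (p : ℤ) * W'.coeff i = W.coeff i := by
      intro i hi
      have : W'.coeff i = W.coeff i / p := by
        rw [hW', finset_sum_coeff]
        simp only [coeff_C_mul, coeff_X_pow]
        rw [Finset.sum_eq_single i]
        · simp
        · intro b _ hb
          rw [if_neg (fun e => hb e.symm), mul_zero]
        · intro hn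
          exact absurd (Finset.mem_range.2 hi) hn
      rw [this, Int.mul_ediv_cancel' (hW i (by omega))]
    have hstep : ∀ i < m - s, (Q * W').coeff i = (C R' : ℤ[X]).coeff i := by
      intro i hi
      have e1 : (p : ℤ) * (Q * W').coeff i = (Q * W).coeff i := by
        rw [coeff_mul, coeff_mul, Finset.mul_sum]
        refine Finset.sum_congr rfl ?_
        rintro ⟨a, b⟩ hab
        rw [Finset.HasAntidiagonal.mem_antidiagonal] at hab
        simp only at hab
        simp only
        rw [← hc b (by omega)]
        ring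
      have e2 : (p : ℤ) * (C R' : ℤ[X]).coeff i = (C ((p : ℤ) * R') : ℤ[X]).coeff i := by
        rw [coeff_C, coeff_C]
        split_ifs <;> simp
      have e3 := h i (by omega)
      rw [← e1, ← e2] at e3
      exact mul_left_cancel₀ hpz e3
    have := ih R' hR' hR0 W' (m - s) hstep
    rw [Nat.mul_succ]
    omega

/-- the data of a polynomial with constant term divisible by `p` -/
structure Dat (Q : ℤ[X]) (p : ℕ) : Prop where
  pp : p.Prime
  irr : Irreducible Q
  deg : Q.natDegree ≠ 0
  dvd : (p : ℤ) ∣ Q.coeff 0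

theorem Dat.exists_s {Q : ℤ[X]} {p : ℕ} (h : Dat Q p) : ∃ s, 0 < s ∧ s ≤ Q.natDegree ∧ ¬ (p : ℤ) ∣ Q.coeff s ∧
    ∀ i < s, (p : ℤ) ∣ Q.coeff i := by
  classical
  have hprim : Q.IsPrimitive := h.irr.isPrimitive h.deg
  have hex : ∃ i, ¬ (p : ℤ) ∣ Q.coeff i := by
    by_contra hn
    push Not at hn
    have h1 : C (p : ℤ) ∣ Q := (C_dvd_iff_dvd_coeff _ _).2 hn
    have h2 := hprim _ h1
    have h3 := Int.isUnit_iff.1 h2
    have := h.pp.two_le
    omega
  refine ⟨Nat.find hex, ?_, ?_, Nat.find_spec hex, fun i hi => not_not.1 (Nat.find_min hex hi)⟩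
  · rw [Nat.pos_iff_ne_zero]
    intro h0
    have := Nat.find_spec hex
    rw [h0] at this
    exact this h.dvd
  · by_contra hlt
    push Not at hlt
    have := Nat.find_spec hex
    rw [coeff_eq_zero_of_natDegree_lt hlt] at this
    exact this (dvd_zero _)

theorem res_bound (Q G : ℤ[X]) {L : ℕ} (hL : 1 ≤ L) (hQ : ∀ i, (Q.coeff i).natAbs ≤ L) (hG : ∀ i, (G.coeff i).natAbs ≤ L)
    (m n : ℕ) : (resultant Q G m n).natAbs ≤ (m + n).factorial * L ^ (m + n) := by
  have h1 : ∀ i j, AbsoluteValue.abs ((sylvester Q G m n) i j) ≤ (L : ℤ) := by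
    intro i j
    simp only [sylvester, Matrix.of_apply, AbsoluteValue.abs_apply]
    induction j using Fin.addCases with
    | left j =>
      rw [Fin.addCases_left]
      split_ifs
      · rw [Int.abs_eq_natAbs]; exact_mod_cast hG _
      · simp
    | right j =>
      rw [Fin.addCases_right]
      split_ifs
      · rw [Int.abs_eq_natAbs]; exact_mod_cast hQ _
      · simp
  have h2 := Matrix.det_le h1
  rw [Fintype.card_fin] at h2
  unfold resultant
  have h3 : (((sylvester Q G m n).det).natAbs : ℤ) ≤ (((m + n).factorial * L ^ (m + n) : ℕ) : ℤ) := by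
    rw [Int.natCast_natAbs]
    simpa using h2
  exact_mod_cast h3

theorem res_ne_zero {Q G : ℤ[X]} (hQ : Irreducible Q) (hd : Q.natDegree ≠ 0) (hG : ¬ Q ∣ G) :
    resultant Q G ≠ 0 := by
  have hprim : Q.IsPrimitive := hQ.isPrimitive hd
  have hirr := (IsPrimitive.Int.irreducible_iff_irreducible_map_cast hprim).1 hQ
  have hnd : ¬ Q.map (Int.castRingHom ℚ) ∣ G.map (Int.castRingHom ℚ) := fun h =>
    hG ((IsPrimitive.Int.dvd_iff_map_cast_dvd_map_cast Q G hprim).2 h)
  have hcop : IsCoprime (Q.map (Int.castRingHom ℚ)) (G.map (Int.castRingHom ℚ)) :=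
    (hirr.coprime_iff_not_dvd).2 hnd
  intro h0
  have hinj : Function.Injective (Int.castRingHom ℚ) := Int.cast_injective
  have h1 : resultant (Q.map (Int.castRingHom ℚ)) (G.map (Int.castRingHom ℚ)) = 0 := by
    have := resultant_map_map Q G Q.natDegree G.natDegree (Int.castRingHom ℚ)
    rw [natDegree_map_eq_of_injective hinj, natDegree_map_eq_of_injective hinj, this, h0]
    simp
  exact (resultant_eq_zero_iff.1 h1).2 hcop

theorem gapG {Q : ℤ[X]} {p : ℕ} (h : Dat Q p) {L : ℕ} (hL : 1 ≤ L) (hQ : ∀ i, (Q.coeff i).natAbs ≤ L)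
    {G H T : ℤ[X]} {e m : ℕ} (hG : ∀ i, (G.coeff i).natAbs ≤ L) (he : G.natDegree ≤ e) (hnd : ¬ Q ∣ G)
    (hF : G + X ^ m * H = Q * T) :
    m ≤ Q.natDegree * ((Q.natDegree + e).factorial * L ^ (Q.natDegree + e)) := by
  obtain ⟨s, hs0, hsd, hs, hlt⟩ := h.exists_s
  obtain ⟨U, V, -, -, hUV⟩ := exists_mul_add_mul_eq_C_resultant (m := Q.natDegree) (n := G.natDegree) Q G le_rfl
    le_rfl (Or.inl h.deg)
  have hR := res_ne_zero h.irr h.deg hnd
  have key : Q * (U + T * V) - C (resultant Q G) = X ^ m * (H * V) := by
    have e1 : C (resultant Q G) = Q * U + G * V := hUV.symm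
    rw [e1]
    have e2 : G = Q * T - X ^ m * H := by rw [← hF]; ring
    have e3 : Q * (U + T * V) - (Q * U + G * V) = Q * T * V - G * V := by ring
    rw [e3]
    conv_lhs => rw [e2]
    ring
  have hcoef : ∀ i < m, (Q * (U + T * V)).coeff i = (C (resultant Q G) : ℤ[X]).coeff i := by
    intro i hi
    have h1 : (Q * (U + T * V) - C (resultant Q G)).coeff i = 0 := by
      rw [key, coeff_X_pow_mul', if_neg (by omega)]
    rw [coeff_sub, sub_eq_zero] at h1
    exact h1
  have h2 := gap_core h.pp hs hlt hs0 hsd _ _ le_rfl hR _ m hcoef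
  refine h2.trans (Nat.mul_le_mul_left _ ((res_bound Q G hL hQ hG _ _).trans ?_))
  refine Nat.mul_le_mul (Nat.factorial_le (by omega)) (Nat.pow_le_pow_right hL (by omega))

/-- the degree bounds -/
def EE (d L : ℕ) : ℕ → ℕ
  | 0 => 0
  | t + 1 => d * ((d + EE d L t).factorial * L ^ (d + EE d L t))

theorem EE_mono {d L : ℕ} (hd : 1 ≤ d) (hL : 1 ≤ L) (t : ℕ) : EE d L t ≤ EE d L (t + 1) := by
  rw [EE]
  have h1 : EE d L t ≤ (d + EE d L t).factorial := (Nat.le_add_left _ _).trans (Nat.self_le_factorial _)
  have h2 : 1 ≤ L ^ (d + EE d L t) := Nat.one_le_pow _ _ hL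
  calc EE d L t ≤ (d + EE d L t).factorial := h1
    _ ≤ (d + EE d L t).factorial * L ^ (d + EE d L t) := Nat.le_mul_of_pos_right _ h2
    _ ≤ _ := Nat.le_mul_of_pos_left _ hd

theorem deg_bound {Q : ℤ[X]} {p : ℕ} (h : Dat Q p) {F : ℤ[X]} (hdvd : Q ∣ F) (h0 : F.coeff 0 ≠ 0)
    (hmin : ∀ T : ℤ[X], Q * T ≠ 0 → len F ≤ len (Q * T)) {L : ℕ} (hL : len Q ≤ L) :
    F.natDegree ≤ EE Q.natDegree L L := by
  obtain ⟨T, rfl⟩ := hdvd
  set F := Q * T with hFd
  have hF : F ≠ 0 := by intro e; rw [e] at h0; simp at h0
  have hlenF : len F ≤ L := by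
    have := hmin 1 (by rw [mul_one]; exact h.irr.ne_zero)
    rw [mul_one] at this
    exact this.trans hL
  have hd1 : 1 ≤ Q.natDegree := Nat.one_le_iff_ne_zero.2 h.deg
  have hL1 : 1 ≤ L := by
    refine le_trans ?_ hlenF
    refine le_trans ?_ (coeff_le_len F 0)
    exact Int.natAbs_pos.2 h0
  have key : ∀ t, F.natDegree ≤ EE Q.natDegree L t ∨
      t + 1 ≤ (F.support.filter (fun i => i ≤ EE Q.natDegree L t)).card := by
    intro t
    induction t with
    | zero =>
      right
      rw [zero_add, Nat.one_le_iff_ne_zero, ← Nat.pos_iff_ne_zero, Finset.card_pos]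
      exact ⟨0, by simp [h0]⟩
    | succ t ih =>
      rcases ih with ih | ih
      · left; exact ih.trans (EE_mono hd1 hL1 t)
      set E := EE Q.natDegree L t with hE
      by_cases hdeg : F.natDegree ≤ E
      · left; exact hdeg.trans (EE_mono hd1 hL1 t)
      push Not at hdeg
      right
      have hex : ∃ m, E < m ∧ F.coeff m ≠ 0 := ⟨F.natDegree, hdeg, by
        rw [coeff_natDegree]; exact leadingCoeff_ne_zero.2 hF⟩
      classical
      set m := Nat.find hex with hm
      obtain ⟨hm1, hm2⟩ := Nat.find_spec hex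
      rw [← hm] at hm1 hm2
      have hm3 : ∀ i, E < i → i < m → F.coeff i = 0 := by
        intro i hi hi'
        by_contra hne
        exact Nat.find_min hex hi' ⟨hi, hne⟩
      set G : ℤ[X] := ∑ i ∈ Finset.range (E + 1), C (F.coeff i) * X ^ i with hG
      have hGc : ∀ i, G.coeff i = if i ≤ E then F.coeff i else 0 := by
        intro i
        rw [hG, finset_sum_coeff]
        simp only [coeff_C_mul, coeff_X_pow]
        by_cases hi : i ≤ E
        · rw [if_pos hi, Finset.sum_eq_single i]
          · simp
          · intro b _ hb; rw [if_neg (fun e => hb e.symm), mul_zero]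
          · intro hn; exact absurd (Finset.mem_range.2 (by omega)) hn
        · rw [if_neg hi]
          refine Finset.sum_eq_zero ?_
          intro b hb
          rw [Finset.mem_range] at hb
          rw [if_neg (by omega), mul_zero]
      have hGd : G.natDegree ≤ E := by
        rw [natDegree_le_iff_coeff_eq_zero]
        intro N hN
        rw [hGc, if_neg (by omega)]
      obtain ⟨H, hH⟩ : X ^ m ∣ F - G := by
        rw [X_pow_dvd_iff]
        intro i hi
        rw [coeff_sub, hGc]
        by_cases hi2 : i ≤ E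
        · rw [if_pos hi2, sub_self]
        · rw [if_neg hi2, sub_zero]; exact hm3 i (by omega) hi
      have hbd : ∀ i, (G.coeff i).natAbs ≤ L := by
        intro i
        rw [hGc]
        split_ifs
        · exact (coeff_le_len F i).trans hlenF
        · simp
      have hlt : len G < len F := by
        have e1 : len G = ∑ i ∈ F.support.filter (fun i => i ≤ E), (F.coeff i).natAbs := by
          rw [len_eq G (N := F.natDegree + 1) (by omega), Finset.sum_filter]
          rw [Finset.sum_subset (s₁ := F.support) (s₂ := Finset.range (F.natDegree + 1))]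
          · refine Finset.sum_congr rfl fun i _ => ?_
            rw [hGc]
            split_ifs <;> simp
          · exact supp_subset_range_natDegree_succ
          · intro i _ hi
            rw [notMem_support_iff.1 hi]; simp
        have e2 : len F = ∑ i ∈ F.support, (F.coeff i).natAbs := rfl
        rw [e1, e2]
        refine Finset.sum_lt_sum_of_subset (Finset.filter_subset _ _) (i := m) (mem_support_iff.2 hm2) ?_
          (Int.natAbs_pos.2 hm2) (fun _ _ _ => Nat.zero_le _)
        rw [Finset.mem_filter]
        rintro ⟨_, hle⟩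
        omega
      have hnd : ¬ Q ∣ G := by
        rintro ⟨S, hS⟩
        have hG0 : Q * S ≠ 0 := by
          rw [← hS]
          intro e
          have := hGc 0
          rw [e, if_pos (Nat.zero_le _)] at this
          simp only [coeff_zero] at this
          exact h0 this.symm
        have := hmin S hG0
        rw [← hS] at this
        omega
      have hgap := gapG h hL1 (fun i => (coeff_le_len Q i).trans hL) (T := T) (H := H) (m := m) (e := E) hbd hGd hnd
        (by rw [← hH]; ring)
      have hmle : m ≤ EE Q.natDegree L (t + 1) := by rw [EE]; exact hgap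
      have hsub : insert m (F.support.filter (fun i => i ≤ E)) ⊆
          F.support.filter (fun i => i ≤ EE Q.natDegree L (t + 1)) := by
        intro i hi
        rw [Finset.mem_insert] at hi
        rw [Finset.mem_filter]
        rcases hi with rfl | hi
        · exact ⟨mem_support_iff.2 hm2, hmle⟩
        · rw [Finset.mem_filter] at hi
          exact ⟨hi.1, hi.2.trans (EE_mono hd1 hL1 t)⟩
      have hcard := Finset.card_le_card hsub
      rw [Finset.card_insert_of_notMem (by rw [Finset.mem_filter]; rintro ⟨_, hle⟩; omega)] at hcard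
      omega
  rcases key L with h1 | h1
  · exact h1
  · exfalso
    have h2 : (F.support.filter (fun i => i ≤ EE Q.natDegree L L)).card ≤ F.support.card :=
      Finset.card_le_card (Finset.filter_subset _ _)
    have h3 : F.support.card ≤ len F := by
      unfold len
      rw [Finset.card_eq_sum_ones]
      refine Finset.sum_le_sum fun i hi => ?_
      exact Int.natAbs_pos.2 (mem_support_iff.1 hi)
    omega

end Pool.X247.ML
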